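import Pool.Agent.Helper33.HM.Tools

/-!
# HM-H1: the Hechler real at a stage guesses and dominates
-/

set_option autoImplicit false
set_option linter.unusedSectionVars false

namespace Pool.Agent.Helper33.HM

section H1aux

universe u

variable {B : Type u} [CompleteBooleanAlgebra B] {S T : Set B}

theorem h43_mono_le {g : ℕ → ℕ → B} (hg : IsFn S g) (n : ℕ) {k l : ℕ} (h : k ≤ l) :
    g n k ≤ g n l := by
  induction h with
  | refl => exact le_rfl
  | step _ ih => exact ih.trans (hg.mono n _)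

theorem h43_maxF (hS : IsSub S) {f g : ℕ → ℕ → B} (hf : IsFn S f) (hg : IsFn S g) :
    IsFn S (maxF f g) := by
  refine ⟨fun n k => hS.inf_mem (hf.mem n k) (hg.mem n k),
    fun n k => inf_le_inf (hf.mono n k) (hg.mono n k), fun n => ?_⟩
  have h : (⊤ : B) = (⨆ i, f n i) ⊓ ⨆ j, g n j := by rw [hf.tot, hg.tot, inf_top_eq]
  rw [eq_top_iff, h, iSup_inf_eq]
  refine iSup_le fun i => ?_
  rw [inf_iSup_eq]
  refine iSup_le fun j => ?_
  exact (inf_le_inf (h43_mono_le hf n (le_max_left i j)) (h43_mono_le hg n (le_max_right i j))).trans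
    (le_iSup (fun k => maxF f g n k) (max i j))

theorem h43_eqN_mem (hS : IsSub S) {g : ℕ → B} (hg : ∀ k, g k ∈ S) (m : ℕ) : eqN g m ∈ S :=
  hS.inf_mem (hg m) (hS.iInf_mem fun j => hS.iInf_mem fun _ => hS.compl_mem _ (hg j))

/-- Lengthening the stem by one value `j` above the promise. -/
theorem h43_hcond_append {d g : ℕ → ℕ → B} (s : List ℕ) (N j : ℕ) (hNj : N ≤ j)
    (hg : IsFn S g) :
    g s.length N ⊓ hcond d (s ++ [j]) g ≤ hcond d s g ⊓ eqN (d s.length) j := by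
  have h1 : hcond d (s ++ [j]) g ≤ eqN (d s.length) j := by
    refine inf_le_left.trans ?_
    refine (iInf_le _ s.length).trans ((iInf_le _ (by simp)).trans ?_)
    simp
  refine le_inf ?_ (inf_le_right.trans h1)
  refine le_inf ?_ ?_
  · refine le_iInf fun i => le_iInf fun hi => ?_
    refine inf_le_right.trans (inf_le_left.trans ?_)
    refine (iInf_le _ i).trans ((iInf_le _ (by simp; omega)).trans ?_)
    rw [List.getElem_append_left hi]
  · refine le_iInf fun n => le_iInf fun hn => le_iInf fun k => ?_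
    rcases Nat.lt_or_ge s.length n with h | h
    · refine inf_le_right.trans (inf_le_right.trans ?_)
      exact (iInf_le _ n).trans ((iInf_le _ (by simp; omega)).trans (iInf_le _ k))
    · obtain rfl : n = s.length := le_antisymm h hn
      rw [le_himp_iff]
      rcases Nat.lt_or_ge k j with hk | hk
      · have h2 : hcond d (s ++ [j]) g ≤ (d s.length k)ᶜ :=
          h1.trans (inf_le_right.trans ((iInf_le _ k).trans (iInf_le _ hk)))
        have h3 : g s.length N ⊓ hcond d (s ++ [j]) g ⊓ d s.length k ≤ ⊥ := by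
          refine (inf_le_inf_right _ (inf_le_right.trans h2)).trans ?_
          rw [compl_inf_eq_bot]
        exact h3.trans bot_le
      · exact inf_le_left.trans (inf_le_left.trans (h43_mono_le hg _ (hNj.trans hk)))

theorem h43_exists_val {g : ℕ → ℕ → B} (hg : IsFn S g) (n : ℕ) {c : B} (hc : c ≠ ⊥) :
    ∃ N, c ⊓ g n N ≠ ⊥ :=
  exists_inf_ne_bot hc (by rw [hg.tot n]; exact le_top)

/-- Lengthening the stem to at least `k` values. -/
theorem h43_lengthen (hS : IsSub S) {d g : ℕ → ℕ → B} (hg : IsFn S g) (k : ℕ) :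
    ∀ (s : List ℕ) (c : B), c ∈ S → c ≠ ⊥ →
      ∃ s' : List ℕ, ∃ c' ∈ S, c' ≠ ⊥ ∧ c' ≤ c ∧ k ≤ s'.length ∧
        c' ⊓ hcond d s' g ≤ hcond d s g := by
  suffices H : ∀ (t : ℕ) (s : List ℕ) (c : B), c ∈ S → c ≠ ⊥ → k ≤ s.length + t →
      ∃ s' : List ℕ, ∃ c' ∈ S, c' ≠ ⊥ ∧ c' ≤ c ∧ k ≤ s'.length ∧
        c' ⊓ hcond d s' g ≤ hcond d s g by
    intro s c hc hc0
    exact H k s c hc hc0 (by omega)
  intro t
  induction t with
  | zero =>
    intro s c hc hc0 hk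
    exact ⟨s, c, hc, hc0, le_rfl, by omega, inf_le_right⟩
  | succ t ih =>
    intro s c hc hc0 hk
    obtain ⟨N, hN⟩ := h43_exists_val hg s.length hc0
    obtain ⟨s', c', h1, h2, h3, h4, h5⟩ := ih (s ++ [N]) (c ⊓ g s.length N)
      (hS.inf_mem hc (hg.mem _ _)) hN (by simp; omega)
    refine ⟨s', c', h1, h2, h3.trans inf_le_left, h4, ?_⟩
    have h6 : c' ⊓ hcond d s' g ≤ g s.length N ⊓ hcond d (s ++ [N]) g :=
      le_inf (inf_le_left.trans (h3.trans inf_le_right)) h5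
    exact h6.trans ((h43_hcond_append s N N le_rfl hg).trans inf_le_left)

end H1aux

section H1

variable {B : Type 1} [CompleteBooleanAlgebra B]

/-- the Hechler real at `α` guesses a clopen neighbourhood of measure `< 2^(-n)` infinitely
often; `w n j` enumerates the clopen sets (given as finite sets of words) of small measure -/
theorem hechler_guess (I : HIter B) (α : Ordinal.{0}) (w : ℕ → ℕ → Finset (List Bool))
    (hw : ∀ n, ∀ G : Finset (List Bool), (∃ l, (∀ σ ∈ G, σ.length = l) ∧ G.card * 2 ^ n < 2 ^ l) →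
      ∀ N, ∃ j, N ≤ j ∧ w n j = G)
    {Z : List Bool → B} (hZ : ∀ σ, Z σ ∈ I.S α) (hpr : IsPr Z) (hnull : nullV Z = ⊤) (k : ℕ) :
    ⨆ n : ℕ, ⨆ _ : k ≤ n, ⨆ j : ℕ, eqN (I.d α n) j ⊓
      (⨆ l : ℕ, ⨅ σ : List Bool, ⨅ _ : σ.length = l ∧ ¬ ∃ τ ∈ w n j, τ <+: σ, (Z σ)ᶜ) = ⊤ := by
  classical
  set Y : B := ⨆ n : ℕ, ⨆ _ : k ≤ n, ⨆ j : ℕ, eqN (I.d α n) j ⊓
      (⨆ l : ℕ, ⨅ σ : List Bool, ⨅ _ : σ.length = l ∧ ¬ ∃ τ ∈ w n j, τ <+: σ, (Z σ)ᶜ) with hY
  by_contra hne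
  have hsub := I.sub (Order.succ α)
  have hmono : I.S α ⊆ I.S (Order.succ α) := I.mono _ _ (Order.le_succ α)
  have hYmem : Y ∈ I.S (Order.succ α) := by
    refine hsub.iSup_mem fun n => hsub.iSup_mem fun _ => hsub.iSup_mem fun j => ?_
    refine hsub.inf_mem (h43_eqN_mem hsub (fun k => (I.d_fn α).mem n k) j) ?_
    exact hsub.iSup_mem fun l => hsub.iInf_mem fun σ => hsub.iInf_mem fun _ =>
      hsub.compl_mem _ (hmono (hZ σ))
  have hb0 : Yᶜ ≠ ⊥ := fun h => hne (by rwa [compl_eq_bot] at h)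
  obtain ⟨c, hc, hc0, s, g, hg, hle⟩ := I.dense α Yᶜ (hsub.compl_mem _ hYmem) hb0
  have hα := I.sub α
  obtain ⟨s', c1, hc1, hc10, hc1c, hk, hle1⟩ := h43_lengthen hα (d := I.d α) hg k s c hc hc0
  -- a small clopen neighbourhood
  have hsm : smallV (s'.length + 1) Z = ⊤ := by
    rw [nullV_eq] at hnull
    exact top_le_iff.1 (hnull ▸ iInf_le _ _)
  have hc1' : c1 ≤ smallV (s'.length + 1) Z := hsm ▸ le_top
  obtain ⟨l, hl⟩ := exists_inf_ne_bot hc10 hc1'
  obtain ⟨G, hG⟩ := exists_inf_ne_bot hl inf_le_right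
  obtain ⟨hcard, hG2⟩ := exists_inf_ne_bot hG inf_le_right
  -- collect
  obtain ⟨c2, hc2, hc20, hc21, hc2Z⟩ : ∃ c2 ∈ I.S α, c2 ≠ ⊥ ∧ c2 ≤ c1 ∧
      ∀ σ : List Bool, σ.length = l ∧ σ ∉ G → c2 ≤ (Z σ)ᶜ := by
    refine ⟨c1 ⊓ ⨅ σ : List Bool, ⨅ _ : σ.length = l ∧ σ ∉ G, (Z σ)ᶜ, ?_, ?_, inf_le_left, ?_⟩
    · exact hα.inf_mem hc1 (hα.iInf_mem fun σ => hα.iInf_mem fun _ => hα.compl_mem _ (hZ σ))
    · intro h
      apply hG2
      rw [eq_bot_iff, ← h]
      exact le_inf (inf_le_left.trans (inf_le_left.trans inf_le_left)) inf_le_right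
    · intro σ hσ
      exact inf_le_right.trans ((iInf_le _ σ).trans (iInf_le _ hσ))
  obtain ⟨N, hN⟩ := h43_exists_val hg s'.length hc20
  obtain ⟨j, hNj, hj⟩ := hw s'.length (G.filter fun σ => σ.length = l) ⟨l, by simp, by
    have h1 : (G.filter fun σ => σ.length = l).card ≤ G.card := Finset.card_filter_le _ _
    have h2 : (G.filter fun σ => σ.length = l).card * 2 ^ (s'.length + 1) ≤ 2 ^ l :=
      (Nat.mul_le_mul_right _ h1).trans hcard
    have h3 : 0 < 2 ^ l := by positivity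
    have h4 : (G.filter fun σ => σ.length = l).card * 2 ^ (s'.length + 1) =
      2 * ((G.filter fun σ => σ.length = l).card * 2 ^ s'.length) := by ring
    omega⟩ N
  have hne2 : (c2 ⊓ g s'.length N) ⊓ hcond (I.d α) (s' ++ [j]) g ≠ ⊥ :=
    I.pos α _ g hg _ (hα.inf_mem hc2 (hg.mem _ _)) hN
  apply hne2
  have happ := h43_hcond_append (d := I.d α) s' N j hNj hg
  have e1 : (c2 ⊓ g s'.length N) ⊓ hcond (I.d α) (s' ++ [j]) g ≤
      hcond (I.d α) s' g ⊓ eqN (I.d α s'.length) j :=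
    (inf_le_inf_right _ inf_le_right).trans happ
  have e2 : (c2 ⊓ g s'.length N) ⊓ hcond (I.d α) (s' ++ [j]) g ≤ c1 :=
    inf_le_left.trans (inf_le_left.trans hc21)
  have e3 : (c2 ⊓ g s'.length N) ⊓ hcond (I.d α) (s' ++ [j]) g ≤ Yᶜ :=
    (le_inf (e2.trans hc1c) ((le_inf e2 (e1.trans inf_le_left)).trans hle1)).trans hle
  have e4 : (c2 ⊓ g s'.length N) ⊓ hcond (I.d α) (s' ++ [j]) g ≤ Y := by
    refine le_trans ?_ (le_iSup _ s'.length)
    refine le_trans ?_ (le_iSup _ hk)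
    refine le_trans ?_ (le_iSup _ j)
    refine le_inf (e1.trans inf_le_right) ?_
    refine le_trans ?_ (le_iSup _ l)
    refine le_iInf fun σ => le_iInf fun hσ => ?_
    refine inf_le_left.trans (inf_le_left.trans (hc2Z σ ⟨hσ.1, fun hmem => hσ.2 ?_⟩))
    exact ⟨σ, by rw [hj]; simp [hmem, hσ.1], List.prefix_rfl⟩
  have e5 := le_inf e4 e3
  rwa [inf_compl_eq_bot, le_bot_iff] at e5

/-- the Hechler real at `α` dominates the functions with a name in `S α` -/
theorem hechler_dom (I : HIter B) (α : Ordinal.{0}) {g : ℕ → ℕ → B} (hg : IsFn (I.S α) g) :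
    ⨆ m : ℕ, ⨅ n : ℕ, ⨅ _ : m ≤ n, ⨅ k : ℕ, I.d α n k ⇨ g n k = ⊤ := by
  set X : B := ⨆ m : ℕ, ⨅ n : ℕ, ⨅ _ : m ≤ n, ⨅ k : ℕ, I.d α n k ⇨ g n k with hX
  by_contra hne
  have hsub := I.sub (Order.succ α)
  have hα := I.sub α
  have hmono : I.S α ⊆ I.S (Order.succ α) := I.mono _ _ (Order.le_succ α)
  have hXmem : X ∈ I.S (Order.succ α) :=
    hsub.iSup_mem fun m => hsub.iInf_mem fun n => hsub.iInf_mem fun _ => hsub.iInf_mem fun k =>
      hsub.himp_mem ((I.d_fn α).mem n k) (hmono (hg.mem n k))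
  have hb0 : Xᶜ ≠ ⊥ := fun h => hne (by rwa [compl_eq_bot] at h)
  obtain ⟨c, hc, hc0, s, g0, hg0, hle⟩ := I.dense α Xᶜ (hsub.compl_mem _ hXmem) hb0
  have hne2 : c ⊓ hcond (I.d α) s (maxF g0 g) ≠ ⊥ :=
    I.pos α s _ (h43_maxF hα hg0 hg) c hc hc0
  apply hne2
  have e1 : hcond (I.d α) s (maxF g0 g) ≤ hcond (I.d α) s g0 := by
    refine inf_le_inf_left _ ?_
    refine iInf_mono fun n => iInf_mono fun _ => iInf_mono fun k => ?_
    exact himp_le_himp_left inf_le_left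
  have e2 : hcond (I.d α) s (maxF g0 g) ≤ X := by
    refine le_trans (inf_le_right.trans ?_) (le_iSup _ s.length)
    refine iInf_mono fun n => iInf_mono fun _ => iInf_mono fun k => ?_
    exact himp_le_himp_left inf_le_right
  have e3 : c ⊓ hcond (I.d α) s (maxF g0 g) ≤ X ⊓ Xᶜ :=
    le_inf (inf_le_right.trans e2) ((inf_le_inf_left _ e1).trans hle)
  rwa [inf_compl_eq_bot, le_bot_iff] at e3

end H1

end Pool.Agent.Helper33.HM
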